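import Pool.Agent.H635.SK.Sacks

/-!
# Sacks indestructible MAD families when the splitting number is `ℵ₁`

The definitions (`splittingNumber`, `IsMAD`, `PerfectTree`, `Forces`, `SacksIndestructible`) are in
`Pool.Agent.H635.SK.Defs`.

Sketch. It suffices to find an infinite almost disjoint family such that for every Borel map
`F : 2^ω → [ω]^ω` some member meets `F x` in an infinite set for uncountably many `x`. Under CH this
is a recursion of length `ω₁`. Otherwise let `e_ξ` (`ξ < ω₁`) be a splitting family. For each of the
`𝔠` many maps `F` we find `λ ≤ μ < ω₁`, an uncountable Borel set `R`, a one-to-one `p : R → 2^ω` and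
Borel maps `b_v(a) ⊆ F(p(a))` (`v ∈ 2^ω`) such that `b_v(a)` is not split by `e_ξ` for `ξ ≤ μ`, the
nodes (sides of the `e_ξ`, `ξ ≤ μ`, on which `b_v(a)` lies) are different for different `v`, the node
up to `λ` does not depend on `v` and determines `a`, and `λ` is minimal. A selection lemma
(`Elem.lean`), whose proof uses the least size of a family of Borel functions that cannot be thinned
out simultaneously, gives parameters `v` such that any two of these families have, on suitable
uncountable Borel sets, only countably many nodes in common. After two more thinning processes the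
remaining comparabilities between nodes of different families form a well-founded relation with
countable sections, and the almost disjoint sets can be constructed by recursion along this
relation as images of `2^{<ω}` that concentrate on the nodes of their family.
-/

namespace Pool.Agent.Results.MP_9abc7c_lc.SplittingAlephOne

open Pool.Agent.H635.SK Cardinal

/-- ZFC: if `𝔰 = ℵ₁`, then there is a Sacks indestructible maximal almost disjoint family
(no assumption on `𝔟`, `𝔞` or the size of the continuum). -/
theorem result (hs : splittingNumber = ℵ₁) : ∃ 𝒜 : Set (Set ℕ), SacksIndestructible 𝒜 := by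
  have hne : {κ | ∃ 𝒮 : Set (Set ℕ), IsSplittingFamily 𝒮 ∧ #𝒮 = κ}.Nonempty := by
    by_contra h
    rw [Set.not_nonempty_iff_eq_empty] at h
    have h0 : splittingNumber = 0 := by
      unfold splittingNumber
      rw [h]
      exact Cardinal.sInf_empty
    rw [h0] at hs
    exact absurd hs.symm (Cardinal.aleph_pos 1).ne'
  obtain ⟨𝒮, h𝒮, hcard⟩ := csInf_mem hne
  have hle : #𝒮 ≤ ℵ₁ := by
    rw [hcard]
    exact hs.le
  obtain ⟨𝒜, h1, h2, h3, h4⟩ := hit_of_splitting 𝒮 hle h𝒮
  exact ⟨𝒜, sacks_of_hits h1 h2 h3 h4⟩

end Pool.Agent.Results.MP_9abc7c_lc.SplittingAlephOne
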